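import Pool.Agent.H9.KA.Stmts
import Pool.Agent.H34.KA.TYA
import Pool.Agent.H20.KA.TRC
import Pool.Agent.H32.Dense.Conf
import Pool.Agent.H32.Dense.Pair

/-!
# The entropy inequality in dimensions zero and one
-/

set_option autoImplicit false

namespace Pool.KAL.KP1

open Finset Real
open Pool.Agent.H49.Ent Pool.Agent.H32.Dense Pool.STK Pool.KA

/-! ### Dimension zero -/

theorem CH_unit {Ω S T : Type} [Fintype Ω] [Subsingleton S] {p : Ω → ℝ} (hp : ∀ ω, 0 ≤ p ω)
    (X : Ω → S) (W : Ω → T) : CH p X W = 0 :=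
  CH_eq_zero hp fun _ _ _ _ _ => Subsingleton.elim _ _

theorem kp_zero : KP 0 := by
  intro ε hε
  refine ⟨1, one_pos, 0, fun J _ F _ => ?_⟩
  unfold Fam.V
  rw [CH_unit F.isLaw.nonneg, CH_unit F.isLaw.nonneg]
  simp only [Nat.cast_zero, zero_mul, sub_zero]
  positivity

/-! ### Lines which meet -/

variable {m J : ℕ}

/-- The position is a function of the line and of the time. -/
theorem X_det (F : Fam m J) (j : ℕ) {ω ω' : F.Ω} (h : F.l ω = F.l ω') (h' : F.T ω = F.T ω') :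
    F.X j ω = F.X j ω' := by
  have h3 : F.u ω = F.u ω' := (Prod.ext_iff.mp h).1
  have h4 : F.d ω = F.d ω' := (Prod.ext_iff.mp h).2
  unfold Fam.X Fam.x Fam.t
  rw [h', h3, h4]

/-- The time of two lines which meet. -/
theorem mates (F : Fam m J) {γ : Type} (C : F.Ω → γ) (hC : Det F.p F.l C) :
    2 * CH F.p F.T (fun ω => (F.l ω, F.Z ω)) ≤ CH F.p F.T (fun ω => (C ω, F.Z ω)) +
      CH F.p (F.X J) (fun ω => (C ω, F.W ω)) +
      CH (dbl F.p (fun ω => (C ω, (F.X J ω, F.W ω)))) (fun w => F.T w.1)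
        (fun w => ((F.l w.1, F.l w.2), F.Z w.1)) := by
  have hp := F.isLaw.nonneg
  set b : F.Ω → γ × ((Fin m → ℤ) × (ℕ × F.ζ)) := fun ω => (C ω, (F.X J ω, F.W ω)) with hb
  set q := dbl F.p b with hq
  have hq0 : ∀ w, 0 ≤ q w := fun w => dbl_nonneg hp w
  have hfst : Marg q F.p (fun w => w.1) := dbl_fst hp
  have hsnd : Marg q F.p (fun w => w.2) := dbl_snd hp
  have hbb : ∀ w, 0 < q w → b w.1 = b w.2 := fun w h => dbl_eq hp h
  have hbb' : ∀ w, 0 < q w → C w.1 = C w.2 ∧ F.X J w.1 = F.X J w.2 ∧ F.T w.1 = F.T w.2 ∧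
      F.Z w.1 = F.Z w.2 := by
    intro w h
    have h1 := hbb w h
    simp only [hb, Fam.W, Prod.mk.injEq] at h1
    exact ⟨h1.1, h1.2.1, h1.2.2.1, h1.2.2.2⟩
  have a1 := CH_chain hq0 (fun w => F.T w.1) (fun w => (F.l w.1, F.l w.2))
    (fun w => (C w.1, F.Z w.1))
  have a2 := CH_subadd hq0 (fun w => F.l w.1) (fun w => F.l w.2) (fun w => (C w.1, F.Z w.1))
  have a3 : CH q (fun w => F.l w.1) (fun w => (C w.1, F.Z w.1)) =
      CH F.p F.l (fun ω => (C ω, F.Z ω)) := hfst.CH F.l (fun ω => (C ω, F.Z ω))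
  have a4 : CH q (fun w => F.l w.2) (fun w => (C w.1, F.Z w.1)) =
      CH F.p F.l (fun ω => (C ω, F.Z ω)) := by
    rw [← hsnd.CH F.l (fun ω => (C ω, F.Z ω))]
    refine CH_congr hq0 (fun _ _ _ _ h => (Prod.ext_iff.mp h).1)
      (fun _ _ _ _ h => (Prod.ext_iff.mp h).1) ?_ ?_
    · intro w w' hw hw' h
      have e1 := hbb' w hw
      have e2 := hbb' w' hw'
      simp only [Prod.mk.injEq] at h ⊢
      exact ⟨by rw [← e1.1, ← e2.1, h.1], by rw [← e1.2.2.2, ← e2.2.2.2, h.2]⟩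
    · intro w w' hw hw' h
      have e1 := hbb' w hw
      have e2 := hbb' w' hw'
      simp only [Prod.mk.injEq] at h ⊢
      exact ⟨by rw [e1.1, e2.1, h.1], by rw [e1.2.2.2, e2.2.2.2, h.2]⟩
  have a5 : CH q (fun w => F.T w.1) (fun w => ((F.l w.1, F.l w.2), (C w.1, F.Z w.1))) ≤
      CH q (fun w => F.T w.1) (fun w => ((F.l w.1, F.l w.2), F.Z w.1)) := by
    refine CH_mono_cond hq0 ?_
    intro w w' _ _ h
    simp only [Prod.mk.injEq] at h ⊢
    exact ⟨h.1, h.2.2⟩
  have b0 : CH q (fun w => (F.T w.1, (F.l w.1, F.l w.2))) (fun w => (C w.1, F.Z w.1)) =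
      CH q (fun w => ((F.l w.2, F.l w.1), (F.X J w.1, F.T w.1)))
        (fun w => (C w.1, F.Z w.1)) := by
    refine CH_congr hq0 ?_ ?_ (fun _ _ _ _ h => h) (fun _ _ _ _ h => h)
    · intro w w' _ _ h
      simp only [Prod.mk.injEq] at h ⊢
      exact ⟨⟨h.1.2.2, h.1.2.1⟩, X_det F J h.1.2.1 h.1.1, h.1.1⟩
    · intro w w' _ _ h
      simp only [Prod.mk.injEq] at h ⊢
      exact ⟨h.1.2.2, h.1.1.2, h.1.1.1⟩
  have b1 := CH_chain hq0 (fun w => (F.l w.2, F.l w.1)) (fun w => (F.X J w.1, F.T w.1))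
    (fun w => (C w.1, F.Z w.1))
  have b2 : CH q (fun w => (F.X J w.1, F.T w.1)) (fun w => (C w.1, F.Z w.1)) =
      CH F.p (fun ω => (F.X J ω, F.T ω)) (fun ω => (C ω, F.Z ω)) :=
    hfst.CH (fun ω => (F.X J ω, F.T ω)) (fun ω => (C ω, F.Z ω))
  have b3 : CH q (fun w => (F.l w.2, F.l w.1))
      (fun w => ((F.X J w.1, F.T w.1), (C w.1, F.Z w.1))) =
      CH q (fun w => (F.l w.2, F.l w.1)) (fun w => b w.1) := by
    refine CH_congr hq0 (fun _ _ _ _ h => (Prod.ext_iff.mp h).1)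
      (fun _ _ _ _ h => (Prod.ext_iff.mp h).1) ?_ ?_
    · intro w w' _ _ h
      simp only [hb, Fam.W, Prod.mk.injEq] at h ⊢
      tauto
    · intro w w' _ _ h
      simp only [hb, Fam.W, Prod.mk.injEq] at h ⊢
      tauto
  have b4 := CH_chain hq0 (fun w => F.l w.2) (fun w => F.l w.1) (fun w => b w.1)
  have b5 : CH q (fun w => F.l w.1) (fun w => b w.1) = CH F.p F.l b := hfst.CH F.l b
  have b6 : CH q (fun w => F.l w.2) (fun w => (F.l w.1, b w.1)) = CH F.p F.l b := by
    rw [← CH_dbl_2 hp F.l F.l]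
    refine CH_congr hq0 (fun _ _ _ _ h => (Prod.ext_iff.mp h).1)
      (fun _ _ _ _ h => (Prod.ext_iff.mp h).1) ?_ ?_
    · intro w w' hw hw' h
      simp only [Prod.mk.injEq] at h ⊢
      exact ⟨by rw [← hbb w hw, ← hbb w' hw', h.2], h.1⟩
    · intro w w' hw hw' h
      simp only [Prod.mk.injEq] at h ⊢
      exact ⟨h.2, by rw [hbb w hw, hbb w' hw', h.1]⟩
  -- the line given the position
  have c1 := CH_chain hp F.T F.l (fun ω => (C ω, F.Z ω))
  have c2 := CH_chain hp F.l (fun ω => (F.X J ω, F.T ω)) (fun ω => (C ω, F.Z ω))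
  have c3 : CH F.p (fun ω => (F.T ω, F.l ω)) (fun ω => (C ω, F.Z ω)) =
      CH F.p (fun ω => (F.l ω, (F.X J ω, F.T ω))) (fun ω => (C ω, F.Z ω)) := by
    refine CH_congr hp ?_ ?_ (fun _ _ _ _ h => h) (fun _ _ _ _ h => h)
    · intro ω ω' _ _ h
      simp only [Prod.mk.injEq] at h ⊢
      exact ⟨h.1.2, X_det F J h.1.2 h.1.1, h.1.1⟩
    · intro ω ω' _ _ h
      simp only [Prod.mk.injEq] at h ⊢
      exact ⟨h.1.2.2, h.1.1⟩
  have c4 : CH F.p F.T (fun ω => (F.l ω, (C ω, F.Z ω))) =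
      CH F.p F.T (fun ω => (F.l ω, F.Z ω)) := by
    refine CH_congr hp (fun _ _ _ _ h => (Prod.ext_iff.mp h).1)
      (fun _ _ _ _ h => (Prod.ext_iff.mp h).1) ?_ ?_
    · intro ω ω' _ _ h
      simp only [Prod.mk.injEq] at h ⊢
      exact ⟨h.1, h.2.2⟩
    · intro ω ω' a a' h
      simp only [Prod.mk.injEq] at h ⊢
      exact ⟨h.1, hC ω ω' a a' h.1, h.2⟩
  have c5 : CH F.p F.l (fun ω => ((F.X J ω, F.T ω), (C ω, F.Z ω))) = CH F.p F.l b := by
    refine CH_congr hp (fun _ _ _ _ h => (Prod.ext_iff.mp h).1)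
      (fun _ _ _ _ h => (Prod.ext_iff.mp h).1) ?_ ?_
    · intro w w' _ _ h
      simp only [hb, Fam.W, Prod.mk.injEq] at h ⊢
      tauto
    · intro w w' _ _ h
      simp only [hb, Fam.W, Prod.mk.injEq] at h ⊢
      tauto
  have d1 := CH_chain hp (F.X J) F.T (fun ω => (C ω, F.Z ω))
  have d2 : CH F.p (F.X J) (fun ω => (F.T ω, (C ω, F.Z ω))) =
      CH F.p (F.X J) (fun ω => (C ω, F.W ω)) := by
    refine CH_congr hp (fun _ _ _ _ h => (Prod.ext_iff.mp h).1)
      (fun _ _ _ _ h => (Prod.ext_iff.mp h).1) ?_ ?_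
    · intro w w' _ _ h
      simp only [Fam.W, Prod.mk.injEq] at h ⊢
      tauto
    · intro w w' _ _ h
      simp only [Fam.W, Prod.mk.injEq] at h ⊢
      tauto
  linarith only [a1, a2, a3, a4, a5, b0, b1, b2, b3, b4, b5, b6, c1, c2, c3, c4, c5, d1, d2]

/-- The violation, by means of a function `C` of the line. -/
theorem V_le (F : Fam m J) {γ : Type} (C : F.Ω → γ) (hC : Det F.p F.l C) {e : ℝ}
    (he : F.Tm e) :
    CH F.p (F.D J) F.Z - CH F.p (F.X J) F.W ≤ e + CH F.p C (fun ω => (F.X J ω, F.W ω)) +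
      CH F.p (F.D J) (fun ω => (C ω, F.Z ω)) - CH F.p (F.X J) (fun ω => (C ω, F.W ω)) := by
  have hp := F.isLaw.nonneg
  have h1 := CH_le_add hp (F.D J) C F.Z
  have h2 := CH_bayes hp (F.X J) C F.W
  have h3 := CH_bayes hp C F.T F.Z
  have h4 := TRC.CH_lt F.isLaw F.T F.Z J F.tim
  have h5 : CH F.p F.T (fun ω => (F.l ω, F.Z ω)) ≤ CH F.p F.T (fun ω => (C ω, F.Z ω)) := by
    refine CH_mono_cond hp ?_
    intro ω ω' a a' h
    simp only [Prod.mk.injEq] at h ⊢
    exact ⟨hC ω ω' a a' h.1, h.2⟩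
  unfold Fam.Tm at he
  have h6 : CH F.p C F.W = CH F.p C (fun ω => (F.T ω, F.Z ω)) := rfl
  linarith only [he, h1, h2, h3, h4, h5, h6]

/-- The distance of the directions of two lines, in units of `2 ^ (-J)`. -/
noncomputable def gp (F : Fam 1 J) (w : F.Ω × F.Ω) : ℝ :=
  max 1 (2 ^ J * |F.d w.1 0 - F.d w.2 0|)

theorem one_le_gp (F : Fam 1 J) (w : F.Ω × F.Ω) : 1 ≤ gp F w := le_max_left _ _

theorem gp_le (F : Fam 1 J) (w : F.Ω × F.Ω) : gp F w ≤ 2 * 2 ^ J := by
  unfold gp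
  have h1 : (1 : ℝ) ≤ 2 ^ J := one_le_pow₀ (by norm_num)
  refine max_le (by linarith only [h1]) ?_
  have h2 := abs_sub (F.d w.1 0) (F.d w.2 0)
  have h3 := F.dir w.1 0
  have h4 := F.dir w.2 0
  have h5 : |F.d w.1 0 - F.d w.2 0| ≤ 2 := by linarith only [h2, h3, h4]
  nlinarith only [h2, h3, h4, h1]

/-- Two lines with the same rounded position at the same time. -/
theorem meet (F : Fam 1 J) {ω ω' : F.Ω} (h : F.X J ω = F.X J ω') (h' : F.T ω = F.T ω') :
    |2 ^ J * (F.u ω 0 - F.u ω' 0) + F.T ω * (F.d ω 0 - F.d ω' 0)| ≤ 1 := by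
  have h1 := rd_close (x := fun i => 2 ^ J * F.x ω i) (y := fun i => 2 ^ J * F.x ω' i) h 0
  have e : 2 ^ J * F.x ω 0 - 2 ^ J * F.x ω' 0 =
      2 ^ J * (F.u ω 0 - F.u ω' 0) + F.T ω * (F.d ω 0 - F.d ω' 0) := by
    unfold Fam.x Fam.t
    rw [h']
    field_simp
    ring
  rw [← e]
  exact h1

theorem time_le (F : Fam 1 J) {γ : Type} (C : F.Ω → γ) :
    CH (dbl F.p (fun ω => (C ω, (F.X J ω, F.W ω)))) (fun w => F.T w.1)
        (fun w => ((F.l w.1, F.l w.2), F.Z w.1)) ≤
      Real.log 6 + J * Real.log 2 -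
        Ex (dbl F.p (fun ω => (C ω, (F.X J ω, F.W ω)))) (fun w => Real.log (gp F w)) := by
  have hp := F.isLaw.nonneg
  set b : F.Ω → γ × ((Fin 1 → ℤ) × (ℕ × F.ζ)) := fun ω => (C ω, (F.X J ω, F.W ω)) with hb
  set q := dbl F.p b with hq
  have hq0 : ∀ w, 0 ≤ q w := fun w => dbl_nonneg hp w
  have hq1 : ∑ w, q w = 1 := by rw [(dbl_fst hp).sum, F.isLaw.sum_one]
  have h2J : (1 : ℝ) ≤ 2 ^ J := one_le_pow₀ (by norm_num)
  have hbb' : ∀ w, 0 < q w → F.X J w.1 = F.X J w.2 ∧ F.T w.1 = F.T w.2 := by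
    intro w h
    have h1 : b w.1 = b w.2 := dbl_eq hp h
    simp only [hb, Fam.W, Prod.mk.injEq] at h1
    exact ⟨h1.2.1, h1.2.2.1⟩
  have h1 : CH q (fun w => F.T w.1) (fun w => ((F.l w.1, F.l w.2), F.Z w.1)) =
      CH q (fun w => (F.T w.1 : ℤ)) (fun w => ((F.l w.1, F.l w.2), F.Z w.1)) := by
    refine CH_congr hq0 ?_ ?_ (fun _ _ _ _ h => h) (fun _ _ _ _ h => h)
    · intro w w' _ _ h
      simp only [Prod.mk.injEq] at h
      change (F.T w.1 : ℤ) = F.T w'.1
      rw [h.1]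
    · intro w w' _ _ h
      simp only [Prod.mk.injEq] at h
      exact_mod_cast h.1
  rw [h1]
  have h2 := CH_le_int hq0 hq1 (fun w => (F.T w.1 : ℤ))
    (fun w => ((F.l w.1, F.l w.2), F.Z w.1)) (fun w => 2 * 2 ^ J / gp F w) (by
      intro w w' hw hw' h
      simp only [Prod.mk.injEq] at h
      obtain ⟨⟨e1, e2⟩, _⟩ := h
      have u1 : F.u w.1 = F.u w'.1 := (Prod.ext_iff.mp e1).1
      have d1 : F.d w.1 = F.d w'.1 := (Prod.ext_iff.mp e1).2
      have u2 : F.u w.2 = F.u w'.2 := (Prod.ext_iff.mp e2).1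
      have d2 : F.d w.2 = F.d w'.2 := (Prod.ext_iff.mp e2).2
      have k1 := meet F (hbb' w hw).1 (hbb' w hw).2
      have k2 := meet F (hbb' w' hw').1 (hbb' w' hw').2
      rw [← u1, ← u2, ← d1, ← d2] at k2
      push_cast
      rw [le_div_iff₀ (lt_of_lt_of_le one_pos (one_le_gp F w))]
      have t1 : (F.T w.1 : ℝ) < 2 ^ J := by exact_mod_cast F.tim w.1
      have t2 : (F.T w'.1 : ℝ) < 2 ^ J := by exact_mod_cast F.tim w'.1
      have t1' : (0 : ℝ) ≤ F.T w.1 := Nat.cast_nonneg _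
      have t2' : (0 : ℝ) ≤ F.T w'.1 := Nat.cast_nonneg _
      unfold gp
      rw [mul_max_of_nonneg _ _ (abs_nonneg _)]
      refine max_le ?_ ?_
      · rw [mul_one, abs_le]
        constructor <;> linarith
      · have e3 : |(F.T w.1 : ℝ) - F.T w'.1| * (2 ^ J * |F.d w.1 0 - F.d w.2 0|) =
            2 ^ J * |((F.T w.1 : ℝ) - F.T w'.1) * (F.d w.1 0 - F.d w.2 0)| := by
          rw [abs_mul]
          ring
        rw [e3, mul_comm (2 : ℝ) (2 ^ J)]
        refine mul_le_mul_of_nonneg_left ?_ (by positivity)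
        have e4 : ((F.T w.1 : ℝ) - F.T w'.1) * (F.d w.1 0 - F.d w.2 0) =
            (2 ^ J * (F.u w.1 0 - F.u w.2 0) + F.T w.1 * (F.d w.1 0 - F.d w.2 0)) -
            (2 ^ J * (F.u w.1 0 - F.u w.2 0) + F.T w'.1 * (F.d w.1 0 - F.d w.2 0)) := by ring
        rw [e4]
        exact (abs_sub _ _).trans (by linarith only [k1, k2]))
  refine h2.trans ?_
  have h3 : Ex q (fun w => Real.log (2 * (2 * 2 ^ J / gp F w) + 1)) ≤
      Ex q (fun w => (Real.log 6 + J * Real.log 2) - Real.log (gp F w)) := by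
    refine Ex_mono hq0 fun w _ => ?_
    have g1 := one_le_gp F w
    have g2 := gp_le F w
    have g0 : 0 < gp F w := lt_of_lt_of_le one_pos g1
    have e1 : 2 * (2 * 2 ^ J / gp F w) + 1 ≤ 6 * 2 ^ J / gp F w := by
      have : 1 ≤ 2 * 2 ^ J / gp F w := by rwa [one_le_div g0]
      have e2 : 6 * 2 ^ J / gp F w = 3 * (2 * 2 ^ J / gp F w) := by ring
      rw [e2]
      linarith only [this]
    calc Real.log (2 * (2 * 2 ^ J / gp F w) + 1) ≤ Real.log (6 * 2 ^ J / gp F w) :=
          Real.log_le_log (by positivity) e1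
      _ = Real.log 6 + J * Real.log 2 - Real.log (gp F w) := by
          rw [Real.log_div (by positivity) g0.ne', Real.log_mul (by norm_num) (by positivity),
            Real.log_pow]
  refine h3.trans (le_of_eq ?_)
  rw [Ex_sub, Ex_const hq1]

/-- The violation of a family of lines in the plane. -/
theorem V_le_gp (F : Fam 1 J) {γ : Type} (C : F.Ω → γ) (hC : Det F.p F.l C) {e : ℝ}
    (he : F.Tm e) :
    CH F.p (F.D J) F.Z - CH F.p (F.X J) F.W ≤ 3 * e + Real.log 6 +
      CH F.p C (fun ω => (F.X J ω, F.W ω)) + CH F.p (F.D J) (fun ω => (C ω, F.Z ω)) -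
      Ex (dbl F.p (fun ω => (C ω, (F.X J ω, F.W ω)))) (fun w => Real.log (gp F w)) := by
  have h1 := V_le F C hC he
  have h2 := mates F C hC
  have h3 := time_le F C
  have h4 := TRC.CH_lt F.isLaw F.T (fun ω => (C ω, F.Z ω)) J F.tim
  unfold Fam.Tm at he
  linarith only [he, h1, h2, h3, h4]

/-! ### Types -/

section Types

variable {Ω β γ γ' κ : Type} [Fintype Ω] {p : Ω → ℝ}

theorem sum_law_le (hp : ∀ ω, 0 ≤ p ω) (c : Ω → γ) (y : Ω → β) (w : β) (G : Finset γ) :
    ∑ x ∈ G, law p (fun ω => (c ω, y ω)) (x, w) ≤ law p y w := by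
  classical
  unfold law
  rw [Finset.sum_comm]
  refine Finset.sum_le_sum fun ω _ => ?_
  by_cases h : y ω = w
  · simp only [h, Prod.mk.injEq, and_true, if_true]
    rw [Finset.sum_ite_eq G (c ω) (fun _ => p ω)]
    split_ifs
    · exact le_rfl
    · exact hp ω
  · simp only [h, Prod.mk.injEq, and_false, if_false, Finset.sum_const_zero]
    exact le_rfl

theorem cond_eq (A : Ω → κ) (a : κ) (ω : Ω) (h : 0 < cond p A a ω) :
    A ω = a ∧ cond p A a ω = p ω / law p A a := by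
  classical
  unfold Pool.Agent.H49.Ent.cond at h ⊢
  split_ifs at h ⊢ with h1
  · exact ⟨h1, rfl⟩
  · exact absurd h (lt_irrefl _)

theorem cond_pos (hp : ∀ ω, 0 ≤ p ω) (A : Ω → κ) (a : κ) (ω : Ω) (h : 0 < cond p A a ω) :
    0 < p ω := by
  obtain ⟨_, h2⟩ := cond_eq A a ω h
  rw [h2] at h
  rcases (hp ω).eq_or_lt with h0 | h0
  · rw [← h0, zero_div] at h
    exact absurd h (lt_irrefl _)
  · exact h0

/-- Entropy of the cells of large conditional probability. -/
theorem ent_type (hp : IsLaw p) (y : Ω → β) (c : Ω → γ) (A : Ω → κ) (a : κ)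
    (ha : 0 < law p A a) (b0 : ℝ) (hb0 : 0 < b0)
    (h0 : ∀ ω, 0 < p ω → A ω = a → b0 * law p y (y ω) ≤
      law p (fun ω => (c ω, y ω)) (c ω, y ω)) :
    CH (cond p A a) c y ≤ -Real.log b0 := by
  classical
  have hr := cond_nonneg hp.nonneg A a
  have hr1 := sum_cond p A ha.ne'
  have h1 := CH_le_cross hr hr1 c y
    (fun w x => law p (fun ω => (c ω, y ω)) (x, w) / law p y w) (by
      intro ω hω
      have h := cond_pos hp.nonneg A a ω hω
      have e1 := law_pos hp.nonneg (fun ω => (c ω, y ω)) h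
      have e2 := law_pos hp.nonneg y h
      positivity)
    (fun w x => div_nonneg (law_nonneg hp.nonneg _ _) (law_nonneg hp.nonneg _ _)) (by
      intro ω hω G
      have h := cond_pos hp.nonneg A a ω hω
      rw [← Finset.sum_div, div_le_one (law_pos hp.nonneg y h)]
      exact sum_law_le hp.nonneg c y (y ω) G)
  refine h1.trans ?_
  have h2 : Ex (cond p A a) (fun _ => -Real.log b0) = -Real.log b0 := Ex_const hr1 _
  rw [← h2]
  refine Ex_mono hr fun ω hω => neg_le_neg (Real.log_le_log hb0 ?_)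
  have h := cond_pos hp.nonneg A a ω hω
  rw [le_div_iff₀ (law_pos hp.nonneg y h)]
  exact h0 ω h (cond_eq A a ω hω).1

open Classical in
/-- Collisions at the next scale. -/
theorem coll (hp : IsLaw p) (y : Ω → β) (c : Ω → γ) (c' : Ω → γ') (A : Ω → κ) (a : κ)
    (ha : 0 < law p A a) (b0 b1 : ℝ) (hb0 : 0 < b0) (hb1 : 0 ≤ b1)
    (h0 : ∀ ω, 0 < p ω → A ω = a → b0 * law p y (y ω) ≤
      law p (fun ω => (c ω, y ω)) (c ω, y ω))
    (h1 : ∀ ω, 0 < p ω → A ω = a → law p (fun ω => (c' ω, y ω)) (c' ω, y ω) ≤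
      b1 * law p y (y ω))
    (near : Ω → Ω → Prop) (Nb : γ' → Finset γ') (K : ℕ) (hNb : ∀ g, (Nb g).card ≤ K)
    (hn : ∀ ω ω', y ω = y ω' → near ω ω' → c' ω' ∈ Nb (c' ω)) :
    Ex (dbl (cond p A a) (fun ω => (c ω, y ω))) (fun w => if near w.1 w.2 then 1 else 0) ≤
      K * b1 / b0 / law p A a := by
  have hp0 := hp.nonneg
  set r := cond p A a with hrdef
  set z : Ω → γ × β := fun ω => (c ω, y ω) with hz
  have hr : ∀ ω, 0 ≤ r ω := cond_nonneg hp0 A a
  have hly : ∀ s, 0 ≤ law p y s := fun s => law_nonneg hp0 y s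
  -- one line
  have step : ∀ ω, 0 < r ω → ∑ ω', (if z ω = z ω' ∧ near ω ω' then r ω' else 0) ≤
      K * b1 * law p y (y ω) / law p A a := by
    intro ω hω
    have hpω := cond_pos hp0 A a ω hω
    have i1 : ∀ ω', (if z ω = z ω' ∧ near ω ω' then r ω' else 0) ≤
        ∑ g ∈ Nb (c' ω), (if c' ω' = g ∧ y ω' = y ω ∧ A ω' = a then p ω' / law p A a else 0) := by
      intro ω'
      have nn : ∀ g ∈ Nb (c' ω), 0 ≤
          (if c' ω' = g ∧ y ω' = y ω ∧ A ω' = a then p ω' / law p A a else 0) := by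
        intro g _
        split_ifs
        · exact div_nonneg (hp0 ω') ha.le
        · exact le_rfl
      by_cases h : z ω = z ω' ∧ near ω ω'
      · rw [if_pos h]
        rcases (hr ω').eq_or_lt with h' | h'
        · rw [← h']
          exact Finset.sum_nonneg nn
        · have hy : y ω = y ω' := (Prod.ext_iff.mp h.1).2
          have hm := hn ω ω' hy h.2
          obtain ⟨e1, e2⟩ := cond_eq A a ω' h'
          refine le_trans ?_ (Finset.single_le_sum nn hm)
          rw [if_pos ⟨rfl, hy.symm, e1⟩]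
          exact e2.le
      · rw [if_neg h]
        exact Finset.sum_nonneg nn
    refine (Finset.sum_le_sum fun ω' _ => i1 ω').trans ?_
    rw [Finset.sum_comm]
    have i2 : ∀ g ∈ Nb (c' ω), ∑ ω', (if c' ω' = g ∧ y ω' = y ω ∧ A ω' = a then
        p ω' / law p A a else 0) ≤ b1 * law p y (y ω) / law p A a := by
      intro g _
      by_cases hex : ∃ ω₁, 0 < p ω₁ ∧ c' ω₁ = g ∧ y ω₁ = y ω ∧ A ω₁ = a
      · obtain ⟨ω₁, k1, k2, k3, k4⟩ := hex
        have k5 := h1 ω₁ k1 k4
        rw [k2, k3] at k5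
        calc ∑ ω', (if c' ω' = g ∧ y ω' = y ω ∧ A ω' = a then p ω' / law p A a else 0) ≤
            ∑ ω', (if (c' ω', y ω') = (g, y ω) then p ω' else 0) / law p A a := by
              refine Finset.sum_le_sum fun ω' _ => ?_
              by_cases h' : (c' ω', y ω') = (g, y ω)
              · rw [if_pos h']
                split_ifs
                · exact le_rfl
                · exact div_nonneg (hp0 ω') ha.le
              · rw [if_neg h', if_neg, zero_div]
                rintro ⟨l1, l2, _⟩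
                exact h' (Prod.ext l1 l2)
          _ = law p (fun ω => (c' ω, y ω)) (g, y ω) / law p A a := by
              rw [← Finset.sum_div]
              congr 1
              unfold law
              refine Finset.sum_congr rfl fun i _ => ?_
              congr
          _ ≤ b1 * law p y (y ω) / law p A a := div_le_div_of_nonneg_right k5 ha.le
      · have : ∑ ω', (if c' ω' = g ∧ y ω' = y ω ∧ A ω' = a then p ω' / law p A a else 0) =
            0 := by
          refine Finset.sum_eq_zero fun ω' _ => ?_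
          split_ifs with h'
          · rcases (hp0 ω').eq_or_lt with h'' | h''
            · rw [← h'', zero_div]
            · exact absurd ⟨ω', h'', h'.1, h'.2.1, h'.2.2⟩ hex
          · rfl
        rw [this]
        exact div_nonneg (mul_nonneg hb1 (hly _)) ha.le
    refine (Finset.sum_le_sum i2).trans ?_
    rw [Finset.sum_const, nsmul_eq_mul, mul_assoc (K : ℝ), mul_div_assoc (K : ℝ)]
    refine mul_le_mul_of_nonneg_right ?_ (div_nonneg (mul_nonneg hb1 (hly _)) ha.le)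
    exact_mod_cast hNb (c' ω)
  -- the sum
  have s1 : Ex (dbl r z) (fun w => if near w.1 w.2 then 1 else 0) =
      ∑ ω, r ω / law r z (z ω) *
        ∑ ω', (if z ω = z ω' ∧ near ω ω' then r ω' else 0) := by
    unfold Ex dbl glue
    rw [Fintype.sum_prod_type]
    refine Finset.sum_congr rfl fun ω _ => ?_
    rw [Finset.mul_sum]
    refine Finset.sum_congr rfl fun ω' _ => ?_
    by_cases k1 : z ω = z ω'
    · by_cases k2 : near ω ω'
      · simp only [k1, k2, if_true, and_self]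
        ring
      · simp only [k1, k2, if_false, and_false, mul_zero]
    · simp only [k1, if_false, false_and, mul_zero, zero_mul]
  rw [s1]
  have s2 : ∀ ω, r ω / law r z (z ω) * ∑ ω', (if z ω = z ω' ∧ near ω ω' then r ω' else 0) ≤
      r ω * (law p z (z ω) / law r z (z ω)) * (K * b1 / b0 / law p A a) := by
    intro ω
    rcases (hr ω).eq_or_lt with h | h
    · rw [← h, zero_div, zero_mul, zero_mul, zero_mul]
    · have hpω := cond_pos hp0 A a ω h
      have hlr := law_pos hr z h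
      have k1 := step ω h
      have k2 := h0 ω hpω (cond_eq A a ω h).1
      have k3 : law p y (y ω) ≤ law p z (z ω) / b0 := by
        rw [le_div_iff₀ hb0, mul_comm]
        exact k2
      calc r ω / law r z (z ω) * ∑ ω', (if z ω = z ω' ∧ near ω ω' then r ω' else 0) ≤
          r ω / law r z (z ω) * (K * b1 * (law p z (z ω) / b0) / law p A a) := by
            refine mul_le_mul_of_nonneg_left (k1.trans ?_) (div_nonneg h.le hlr.le)
            refine div_le_div_of_nonneg_right ?_ ha.le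
            exact mul_le_mul_of_nonneg_left k3 (mul_nonneg (Nat.cast_nonneg K) hb1)
        _ = r ω * (law p z (z ω) / law r z (z ω)) * (K * b1 / b0 / law p A a) := by ring
  refine (Finset.sum_le_sum fun ω _ => s2 ω).trans ?_
  rw [← Finset.sum_mul]
  have s3 : ∑ ω, r ω * (law p z (z ω) / law r z (z ω)) ≤ 1 := by
    rw [sum_mul_eq_sum_image r z (fun s => law p z s / law r z s)]
    calc ∑ s ∈ univ.image z, law r z s * (law p z s / law r z s) ≤
        ∑ s ∈ univ.image z, law p z s := by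
          refine Finset.sum_le_sum fun s _ => ?_
          by_cases h : law r z s = 0
          · rw [h, zero_mul]
            exact law_nonneg hp0 z s
          · rw [mul_div_cancel₀ _ h]
      _ = 1 := by rw [sum_law, hp.sum_one]
  have s4 : 0 ≤ K * b1 / b0 / law p A a := by positivity
  calc _ ≤ 1 * (K * b1 / b0 / law p A a) := mul_le_mul_of_nonneg_right s3 s4
    _ = _ := one_mul _

end Types

/-! ### The grid of scales -/

/-- The scales of the grid. -/
def qs (J N i : ℕ) : ℕ := min (i * J / N) J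

theorem qs_le (J N i : ℕ) : qs J N i ≤ J := min_le_right _ _

theorem qs_last {J N : ℕ} (hN : 0 < N) : qs J N (N + 1) = J := by
  unfold qs
  refine min_eq_right ?_
  rw [Nat.le_div_iff_mul_le hN]
  nlinarith only

theorem qs_step {J N : ℕ} (hN : 0 < N) (i : ℕ) :
    ((qs J N (i + 1) : ℕ) : ℝ) - qs J N i ≤ (J : ℝ) / N + 1 := by
  have hN' : (0 : ℝ) < N := by exact_mod_cast hN
  have h1 : ((i + 1) * J / N : ℕ) ≤ ((((i + 1) * J : ℕ) : ℝ)) / N := Nat.cast_div_le
  have h2 : (((i * J : ℕ) : ℝ)) / N < ((i * J / N : ℕ) : ℝ) + 1 := by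
    rw [div_lt_iff₀ hN']
    have := Nat.lt_div_mul_add (a := i * J) hN
    have h3 : i * J < (i * J / N + 1) * N := by nlinarith only [this]
    exact_mod_cast h3
  have h4 : ((((i + 1) * J : ℕ) : ℝ)) / N = (((i * J : ℕ) : ℝ)) / N + (J : ℝ) / N := by
    push_cast
    ring
  have h5 : (0 : ℝ) ≤ (J : ℝ) / N := by positivity
  unfold qs
  rcases le_total (i * J / N) J with h | h
  · rw [min_eq_left h]
    have h6 : ((min ((i + 1) * J / N) J : ℕ) : ℝ) ≤ (((i + 1) * J / N : ℕ) : ℝ) := by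
      exact_mod_cast min_le_left _ _
    linarith only [h1, h2, h4, h6]
  · rw [min_eq_right h]
    have h6 : ((min ((i + 1) * J / N) J : ℕ) : ℝ) ≤ (J : ℝ) := by
      exact_mod_cast min_le_right _ _
    linarith only [h5, h6]

/-- The cells. -/
noncomputable def cel (F : Fam 1 J) (N i : ℕ) (ω : F.Ω) : (Fin 1 → ℤ) × (Fin 1 → ℤ) :=
  if i = 0 then 0 else F.L (qs J N i) ω

theorem cel_det (F : Fam 1 J) (N i : ℕ) {ω ω' : F.Ω} (h : F.l ω = F.l ω') :
    cel F N i ω = cel F N i ω' := by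
  have h3 : F.u ω = F.u ω' := (Prod.ext_iff.mp h).1
  have h4 : F.d ω = F.d ω' := (Prod.ext_iff.mp h).2
  unfold cel Fam.L
  rw [h3, h4]

/-- The point through which the line passes. -/
noncomputable def yy (F : Fam 1 J) (ω : F.Ω) : (Fin 1 → ℤ) × (ℕ × F.ζ) := (F.X J ω, F.W ω)

/-- The cell has a large conditional probability. -/
def Big (F : Fam 1 J) (N : ℕ) (k : ℝ) (i : ℕ) (ω : F.Ω) : Prop :=
  Real.exp (-(i * k * J)) * law F.p (yy F) (yy F ω) ≤
    law F.p (fun ω => (cel F N i ω, yy F ω)) (cel F N i ω, yy F ω)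

theorem big_zero (F : Fam 1 J) (N : ℕ) (k : ℝ) (ω : F.Ω) : Big F N k 0 ω := by
  classical
  unfold Big
  simp only [Nat.cast_zero, zero_mul, neg_zero, Real.exp_zero, one_mul]
  unfold law
  refine Finset.sum_le_sum fun ω' _ => ?_
  have e : cel F N 0 ω' = cel F N 0 ω := by
    unfold cel
    simp
  by_cases h : yy F ω' = yy F ω
  · rw [if_pos h, if_pos (Prod.ext e h)]
  · rw [if_neg h, if_neg (fun h' => h (Prod.ext_iff.mp h').2)]

open Classical in
/-- The type: the last scale at which the cell has a large conditional probability. -/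
noncomputable def typ (F : Fam 1 J) (N : ℕ) (k : ℝ) (ω : F.Ω) : Fin (N + 1) :=
  ⟨Nat.findGreatest (fun i => Big F N k i ω) N, Nat.lt_succ_of_le (Nat.findGreatest_le N)⟩

theorem typ_big (F : Fam 1 J) (N : ℕ) (k : ℝ) (ω : F.Ω) :
    Big F N k (typ F N k ω).val ω := by
  classical
  unfold typ
  exact Nat.findGreatest_spec (P := fun i => Big F N k i ω) (Nat.zero_le N) (big_zero F N k ω)

theorem typ_next (F : Fam 1 J) (N : ℕ) (k : ℝ) (ω : F.Ω) (h : (typ F N k ω).val < N) :
    ¬ Big F N k ((typ F N k ω).val + 1) ω := by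
  classical
  exact Nat.findGreatest_is_greatest (P := fun i => Big F N k i ω) (n := N)
    (k := (typ F N k ω).val + 1) (Nat.lt_succ_self _) h

/-- The neighbours of a cell. -/
noncomputable def Nb (g : (Fin 1 → ℤ) × (Fin 1 → ℤ)) : Finset ((Fin 1 → ℤ) × (Fin 1 → ℤ)) :=
  (Fintype.piFinset fun k => Finset.Icc (g.1 k - 3) (g.1 k + 3)) ×ˢ
    (Fintype.piFinset fun k => Finset.Icc (g.2 k - 3) (g.2 k + 3))

theorem Nb_card (g : (Fin 1 → ℤ) × (Fin 1 → ℤ)) : (Nb g).card ≤ 49 := by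
  unfold Nb
  rw [Finset.card_product, Fintype.card_piFinset, Fintype.card_piFinset]
  simp only [Int.card_Icc, Finset.univ_unique, Finset.prod_singleton]
  have h : ∀ a : ℤ, (a + 3 + 1 - (a - 3)).toNat = 7 := by
    intro a
    have : a + 3 + 1 - (a - 3) = 7 := by ring
    rw [this]
    rfl
  rw [h, h]

theorem mem_Nb {g g' : (Fin 1 → ℤ) × (Fin 1 → ℤ)} (h1 : |((g.1 0 - g'.1 0 : ℤ) : ℝ)| ≤ 3)
    (h2 : |((g.2 0 - g'.2 0 : ℤ) : ℝ)| ≤ 3) : g' ∈ Nb g := by
  have h1' : |g.1 0 - g'.1 0| ≤ 3 := by exact_mod_cast h1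
  have h2' : |g.2 0 - g'.2 0| ≤ 3 := by exact_mod_cast h2
  rw [abs_le] at h1' h2'
  unfold Nb
  rw [Finset.mem_product]
  constructor
  · rw [Fintype.mem_piFinset]
    intro k
    have hk : k = 0 := Subsingleton.elim _ _
    rw [hk, Finset.mem_Icc]
    constructor <;> linarith only [h1']
  · rw [Fintype.mem_piFinset]
    intro k
    have hk : k = 0 := Subsingleton.elim _ _
    rw [hk, Finset.mem_Icc]
    constructor <;> linarith only [h2']

/-- Close lines have neighbouring cells. -/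
theorem near_cell (F : Fam 1 J) {q : ℕ} (hq : q ≤ J) {ω ω' : F.Ω} (hy : yy F ω = yy F ω')
    (hn : 2 ^ J * |F.d ω 0 - F.d ω' 0| < 2 ^ (J - q)) : F.L q ω' ∈ Nb (F.L q ω) := by
  have hX : F.X J ω = F.X J ω' := (Prod.ext_iff.mp hy).1
  have hT : F.T ω = F.T ω' := (Prod.ext_iff.mp (Prod.ext_iff.mp hy).2).1
  have h1 := meet F hX hT
  have hT2 : (F.T ω : ℝ) < 2 ^ J := by exact_mod_cast F.tim ω
  have hT0 : (0 : ℝ) ≤ F.T ω := Nat.cast_nonneg _
  have e : (2 : ℝ) ^ J = 2 ^ (J - q) * 2 ^ q := by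
    rw [← pow_add, Nat.sub_add_cancel hq]
  have p1 : (1 : ℝ) ≤ 2 ^ (J - q) := one_le_pow₀ (by norm_num)
  have p2 : (0 : ℝ) < 2 ^ q := by positivity
  have hd : 2 ^ q * |F.d ω 0 - F.d ω' 0| < 1 := by
    rw [e, mul_assoc] at hn
    have := (mul_lt_iff_lt_one_right (a := (2 : ℝ) ^ (J - q)) (by positivity)).mp hn
    exact this
  have hu : 2 ^ q * |F.u ω 0 - F.u ω' 0| ≤ 2 := by
    have a1 : 2 ^ J * |F.u ω 0 - F.u ω' 0| ≤ 1 + F.T ω * |F.d ω 0 - F.d ω' 0| := by
      have a2 : 2 ^ J * |F.u ω 0 - F.u ω' 0| = |2 ^ J * (F.u ω 0 - F.u ω' 0)| := by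
        rw [abs_mul, abs_of_nonneg (a := (2 : ℝ) ^ J) (by positivity)]
      have a3 : F.T ω * |F.d ω 0 - F.d ω' 0| = |F.T ω * (F.d ω 0 - F.d ω' 0)| := by
        rw [abs_mul, abs_of_nonneg hT0]
      rw [a2, a3]
      have a4 : 2 ^ J * (F.u ω 0 - F.u ω' 0) = (2 ^ J * (F.u ω 0 - F.u ω' 0) +
          F.T ω * (F.d ω 0 - F.d ω' 0)) - F.T ω * (F.d ω 0 - F.d ω' 0) := by ring
      calc |2 ^ J * (F.u ω 0 - F.u ω' 0)| = |(2 ^ J * (F.u ω 0 - F.u ω' 0) +
          F.T ω * (F.d ω 0 - F.d ω' 0)) - F.T ω * (F.d ω 0 - F.d ω' 0)| := by rw [← a4]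
        _ ≤ _ := (abs_sub _ _).trans (by linarith only [h1])
    have a5 : F.T ω * |F.d ω 0 - F.d ω' 0| ≤ 2 ^ J * |F.d ω 0 - F.d ω' 0| :=
      mul_le_mul_of_nonneg_right hT2.le (abs_nonneg _)
    have a6 : 2 ^ J * |F.u ω 0 - F.u ω' 0| ≤ 2 ^ (J - q) * 2 := by linarith only [hn, p1, a1, a5]
    rw [e, mul_assoc] at a6
    exact le_of_mul_le_mul_left a6 (by positivity)
  refine mem_Nb ?_ ?_
  · change |((⌊2 ^ q * F.u ω 0⌋ - ⌊2 ^ q * F.u ω' 0⌋ : ℤ) : ℝ)| ≤ 3
    refine (floor_sub_le_pair _ _).trans ?_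
    rw [← mul_sub, abs_mul, abs_of_nonneg p2.le]
    linarith only [hu]
  · change |((⌊2 ^ q * F.d ω 0⌋ - ⌊2 ^ q * F.d ω' 0⌋ : ℤ) : ℝ)| ≤ 3
    refine (floor_sub_le_pair _ _).trans ?_
    rw [← mul_sub, abs_mul, abs_of_nonneg p2.le]
    linarith only [hd]

/-- The direction given the cell. -/
theorem dir_le {Ω ζ : Type} [Fintype Ω] {p : Ω → ℝ} (hp : IsLaw p) (d : Ω → Fin 1 → ℝ)
    (hd : ∀ ω i, |d ω i| ≤ 1) (Z : Ω → ζ) {γ : Type} (C : Ω → γ) {q : ℕ} (hq : q ≤ J)
    (h : q = 0 ∨ Det p C (fun ω => fl q (d ω))) :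
    CH p (fun ω => fl J (d ω)) (fun ω => (C ω, Z ω)) ≤
      Real.log 5 + ((J : ℝ) - q) * Real.log 2 := by
  have h1 := CH_le_add hp.nonneg (fun ω => fl J (d ω)) (fun ω => fl q (d ω))
    (fun ω => (C ω, Z ω))
  have h2 := TRC.CH_floor hp d (fun ω => (C ω, Z ω)) q (J - q)
  rw [show q + (J - q) = J by omega, Nat.cast_sub hq, Nat.cast_one, one_mul] at h2
  have h3 : CH p (fun ω => fl q (d ω)) (fun ω => (C ω, Z ω)) ≤ Real.log 5 := by
    rcases h with h | h
    · subst h
      have h4 := CH_le_vec hp.nonneg hp.sum_one (fun ω => fl 0 (d ω)) (fun ω => (C ω, Z ω))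
        (fun _ => 2) (by
          intro ω ω' _ _ _ k
          change |((⌊(2 : ℝ) ^ 0 * d ω k⌋ - ⌊(2 : ℝ) ^ 0 * d ω' k⌋ : ℤ) : ℝ)| ≤ 2
          rw [pow_zero, one_mul, one_mul]
          have k1 := hd ω k
          have k2 := hd ω' k
          rw [abs_le] at k1 k2
          have f1 : -1 ≤ ⌊d ω k⌋ := Int.le_floor.mpr (by push_cast; linarith only [k1])
          have f2 : ⌊d ω k⌋ ≤ 1 := by
            have : (⌊d ω k⌋ : ℝ) ≤ 1 := (Int.floor_le _).trans k1.2
            exact_mod_cast this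
          have f3 : -1 ≤ ⌊d ω' k⌋ := Int.le_floor.mpr (by push_cast; linarith only [k2])
          have f4 : ⌊d ω' k⌋ ≤ 1 := by
            have : (⌊d ω' k⌋ : ℝ) ≤ 1 := (Int.floor_le _).trans k2.2
            exact_mod_cast this
          have f5 : |⌊d ω k⌋ - ⌊d ω' k⌋| ≤ 2 := by
            rw [abs_le]
            constructor <;> linarith
          exact_mod_cast f5)
      rw [Ex_const hp.sum_one] at h4
      norm_num at h4
      exact h4
    · rw [CH_eq_zero hp.nonneg]
      · exact Real.log_nonneg (by norm_num)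
      · intro ω ω' a a' e
        exact h ω ω' a a' (Prod.ext_iff.mp e).1
  linarith only [h1, h2, h3]

/-- One type. -/
theorem type_le (F : Fam 1 J) {N : ℕ} (hN : 0 < N) {k : ℝ} (hk : 0 ≤ k) (a : Fin (N + 1))
    (ha : 0 < law F.p (typ F N k) a) (h : IsLaw (cond F.p (typ F N k) a)) {e : ℝ}
    (he : (F.res (typ F N k) a h).Tm e) :
    (F.res (typ F N k) a h).V J ≤ 3 * e + Real.log 6 + Real.log 5 + N * k * J +
      ((J : ℝ) / N + 1) * Real.log 2 +
      J * Real.log 2 * (49 * Real.exp (-(k * J)) / law F.p (typ F N k) a) := by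
  classical
  set G := F.res (typ F N k) a h with hG
  set r : F.Ω → ℝ := cond F.p (typ F N k) a with hr
  have hl2 : 0 < Real.log 2 := Real.log_pos (by norm_num)
  have hGp : ∀ ω, 0 ≤ r ω := h.nonneg
  -- the scales
  set q := qs J N a.val with hq
  set q' := qs J N (a.val + 1) with hq'
  have hqJ : q ≤ J := qs_le _ _ _
  have hqJ' : q' ≤ J := qs_le _ _ _
  have hqq : (q' : ℝ) - q ≤ (J : ℝ) / N + 1 := qs_step hN a.val
  have hqJr : (q : ℝ) ≤ J := by exact_mod_cast hqJ
  have hqJr' : (q' : ℝ) ≤ J := by exact_mod_cast hqJ'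
  -- the cell
  have hC : Det G.p G.l (cel F N a.val) := fun ω ω' _ _ hh => cel_det F N a.val hh
  set z : F.Ω → ((Fin 1 → ℤ) × (Fin 1 → ℤ)) × ((Fin 1 → ℤ) × (ℕ × F.ζ)) :=
    fun ω => (cel F N a.val ω, yy F ω) with hz
  have h1 : CH r (F.D J) F.Z - CH r (F.X J) F.W ≤ 3 * e + Real.log 6 +
      CH r (cel F N a.val) (yy F) + CH r (F.D J) (fun ω => (cel F N a.val ω, F.Z ω)) -
      Ex (dbl r z) (fun w => Real.log (gp F w)) := V_le_gp G (cel F N a.val) hC he
  -- entropy of the cell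
  have h0 : ∀ ω, 0 < F.p ω → typ F N k ω = a →
      Real.exp (-(a.val * k * J)) * law F.p (yy F) (yy F ω) ≤
        law F.p (fun ω => (cel F N a.val ω, yy F ω)) (cel F N a.val ω, yy F ω) := by
    intro ω _ hω
    have := typ_big F N k ω
    rw [hω] at this
    exact this
  have h2 : CH r (cel F N a.val) (yy F) ≤ N * k * J := by
    have e1 := ent_type F.isLaw (yy F) (cel F N a.val) (typ F N k) a ha
      (Real.exp (-(a.val * k * J))) (Real.exp_pos _) h0
    rw [Real.log_exp, neg_neg] at e1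
    refine le_trans e1 ?_
    have e2 : (a.val : ℝ) ≤ N := by exact_mod_cast Nat.lt_succ_iff.mp a.isLt
    have e3 : (0 : ℝ) ≤ k * J := mul_nonneg hk (Nat.cast_nonneg J)
    nlinarith only [e2, e3]
  -- entropy of the direction
  have h3 : CH r (F.D J) (fun ω => (cel F N a.val ω, F.Z ω)) ≤
      Real.log 5 + ((J : ℝ) - q) * Real.log 2 := by
    refine dir_le h F.d F.dir F.Z (cel F N a.val) hqJ ?_
    by_cases h5 : a.val = 0
    · left
      rw [hq, h5]
      unfold qs
      simp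
    · right
      intro ω ω' _ _ hh
      unfold cel at hh
      rw [if_neg h5, if_neg h5] at hh
      exact (Prod.ext_iff.mp hh).2
  -- the distance of the directions
  obtain ⟨near, hnear⟩ : ∃ near : F.Ω → F.Ω → Prop, ∀ ω ω', near ω ω' ↔
      2 ^ J * |F.d ω 0 - F.d ω' 0| < 2 ^ (J - q') := ⟨_, fun _ _ => Iff.rfl⟩
  have hdn : ∀ w, 0 ≤ dbl r z w := fun w => dbl_nonneg hGp w
  have hd1 : ∑ w, dbl r z w = 1 := by rw [(dbl_fst hGp).sum, h.sum_one]
  have h4 : (((J : ℝ) - q') * Real.log 2) * (1 - Ex (dbl r z)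
      (fun w => if near w.1 w.2 then 1 else 0)) ≤
      Ex (dbl r z) (fun w => Real.log (gp F w)) := by
    have e1 : (((J : ℝ) - q') * Real.log 2) * (1 - Ex (dbl r z)
        (fun w => if near w.1 w.2 then 1 else 0)) =
        Ex (dbl r z) (fun w => (((J : ℝ) - q') * Real.log 2) *
          (1 - if near w.1 w.2 then 1 else 0)) := by
      rw [Ex_smul, Ex_sub, Ex_const hd1]
    rw [e1]
    refine Ex_mono hdn fun w _ => ?_
    by_cases hw : near w.1 w.2
    · rw [if_pos hw, sub_self, mul_zero]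
      exact Real.log_nonneg (one_le_gp F w)
    · rw [if_neg hw, sub_zero, mul_one]
      rw [hnear] at hw
      have e2 : (2 : ℝ) ^ (J - q') ≤ gp F w := (not_lt.mp hw).trans (le_max_right _ _)
      have e3 := Real.log_le_log (by positivity) e2
      rw [Real.log_pow, Nat.cast_sub hqJ'] at e3
      exact e3
  have h5 : ((J : ℝ) - q') * Real.log 2 - J * Real.log 2 *
      (49 * Real.exp (-(k * J)) / law F.p (typ F N k) a) ≤
      Ex (dbl r z) (fun w => Real.log (gp F w)) := by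
    refine le_trans ?_ h4
    have c0 : 0 ≤ 49 * Real.exp (-(k * J)) / law F.p (typ F N k) a := by positivity
    rcases (Nat.lt_succ_iff.mp a.isLt).eq_or_lt with haN | haN
    · have e1 : q' = J := by
        rw [hq', haN]
        exact qs_last hN
      rw [e1, sub_self, zero_mul, zero_mul]
      have : 0 ≤ J * Real.log 2 * (49 * Real.exp (-(k * J)) / law F.p (typ F N k) a) := by
        positivity
      linarith only [this]
    · have e1 := coll F.isLaw (yy F) (cel F N a.val) (cel F N (a.val + 1)) (typ F N k) a ha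
        (Real.exp (-(a.val * k * J))) (Real.exp (-((a.val + 1 : ℕ) * k * J)))
        (Real.exp_pos _) (Real.exp_pos _).le h0 (by
          intro ω _ hω
          have e2 := typ_next F N k ω (by rw [hω]; exact haN)
          rw [hω] at e2
          unfold Big at e2
          exact (not_le.mp e2).le) near Nb 49 Nb_card (by
          intro ω ω' hy hn
          have e3 : ∀ ω, cel F N (a.val + 1) ω = F.L q' ω := by
            intro ω
            unfold cel
            rw [if_neg (Nat.succ_ne_zero _)]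
          rw [e3, e3]
          exact near_cell F hqJ' hy ((hnear ω ω').mp hn))
      have e4 : ((49 : ℕ) : ℝ) * Real.exp (-((a.val + 1 : ℕ) * k * J)) /
          Real.exp (-(a.val * k * J)) / law F.p (typ F N k) a =
          49 * Real.exp (-(k * J)) / law F.p (typ F N k) a := by
        congr 1
        push_cast
        rw [mul_div_assoc, ← Real.exp_sub]
        congr 2
        ring
      rw [e4] at e1
      have e5 : Ex (dbl r z) (fun w => if near w.1 w.2 then (1 : ℝ) else 0) ≤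
          49 * Real.exp (-(k * J)) / law F.p (typ F N k) a := e1
      set E := Ex (dbl r z) (fun w => if near w.1 w.2 then (1 : ℝ) else 0) with hE
      have e6 : ((J : ℝ) - q') * Real.log 2 * E ≤ J * Real.log 2 *
          (49 * Real.exp (-(k * J)) / law F.p (typ F N k) a) := by
        have k1 : ((J : ℝ) - q') * Real.log 2 * E ≤ ((J : ℝ) - q') * Real.log 2 *
            (49 * Real.exp (-(k * J)) / law F.p (typ F N k) a) :=
          mul_le_mul_of_nonneg_left e5 (mul_nonneg (by linarith only [hqJr']) hl2.le)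
        refine k1.trans (mul_le_mul_of_nonneg_right ?_ c0)
        have : (0 : ℝ) ≤ q' := Nat.cast_nonneg _
        nlinarith only [hl2]
      linarith only [e6]
  have h6 : G.V J = CH r (F.D J) F.Z - CH r (F.X J) F.W - (1 : ℕ) *
      (((J : ℝ) - J) * Real.log 2) := rfl
  rw [sub_self, zero_mul, mul_zero, sub_zero] at h6
  have h8 := mul_le_mul_of_nonneg_right hqq hl2.le
  rw [h6]
  linarith only [h1, h2, h3, h5, h8]

theorem V_le_types (F : Fam 1 J) {N : ℕ} (hN : 0 < N) {k : ℝ} (hk : 0 ≤ k) {e : ℝ}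
    (he0 : 0 ≤ e) (he : F.Tm e) :
    F.V J ≤ 3 * (N + 1) * (e + Real.log (N + 1)) + 2 * Real.log (N + 1) + Real.log 6 +
      Real.log 5 + N * k * J + ((J : ℝ) / N + 1) * Real.log 2 +
      (N + 1) * (J * Real.log 2 * (49 * Real.exp (-(k * J)))) := by
  classical
  have hl2 : 0 < Real.log 2 := Real.log_pos (by norm_num)
  have hlN : 0 ≤ Real.log (N + 1) := Real.log_nonneg (by
    have : (0 : ℝ) ≤ N := Nat.cast_nonneg N
    linarith only)
  obtain ⟨h, h'⟩ := tya_thm 1 J F (Fin (N + 1)) (typ F N k) e he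
  obtain ⟨h1, h2⟩ := h' h
  have h3 := (abs_le.mp (h1 J)).2
  rw [Fintype.card_fin] at h3
  push_cast at h3
  set R : ℝ := Real.log 6 + Real.log 5 + N * k * J + ((J : ℝ) / N + 1) * Real.log 2 with hR
  set c : ℝ := J * Real.log 2 * (49 * Real.exp (-(k * J))) with hc
  have hc0 : 0 ≤ c := by positivity
  have h4 : ∀ a : Fin (N + 1), (if ha : 0 < law F.p (typ F N k) a then
      law F.p (typ F N k) a * (F.res (typ F N k) a (h a ha)).V J else 0) ≤
      3 * (e + Real.log (N + 1)) + law F.p (typ F N k) a * R + c := by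
    intro a
    split_ifs with ha
    · have h5 := h2 a ha
      rw [Fintype.card_fin] at h5
      push_cast at h5
      have h6 := type_le F hN hk a ha (h a ha) h5
      have h7 := mul_le_mul_of_nonneg_left h6 ha.le
      refine h7.trans (le_of_eq ?_)
      have h8 : law F.p (typ F N k) a ≠ 0 := ha.ne'
      rw [hR, hc]
      field_simp
      ring
    · have h5 : law F.p (typ F N k) a = 0 :=
        le_antisymm (not_lt.mp ha) (law_nonneg F.isLaw.nonneg _ _)
      rw [h5, zero_mul]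
      linarith only [he0, hlN, hc0]
  have h5 := Finset.sum_le_sum (s := Finset.univ) fun a _ => h4 a
  have h6 : ∑ a : Fin (N + 1), (3 * (e + Real.log (N + 1)) + law F.p (typ F N k) a * R + c) =
      (N + 1) * (3 * (e + Real.log (N + 1))) + R + (N + 1) * c := by
    have k1 : ∑ a : Fin (N + 1), law F.p (typ F N k) a * R = R := by
      rw [← Finset.sum_mul, tya_law_sum, F.isLaw.sum_one, one_mul]
    rw [Finset.sum_add_distrib, Finset.sum_add_distrib, k1, Finset.sum_const, Finset.sum_const,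
      Finset.card_univ, Fintype.card_fin, nsmul_eq_mul, nsmul_eq_mul]
    push_cast
    ring
  rw [h6] at h5
  linarith only [h, h3, h5]

theorem kp_one : KP 1 := by
  intro ε hε
  have hl2 : 0 < Real.log 2 := Real.log_pos (by norm_num)
  have hl2' : Real.log 2 ≤ 1 := by
    have := Real.log_le_sub_one_of_pos (x := 2) (by norm_num)
    linarith only [this]
  obtain ⟨N, hN⟩ := exists_nat_gt (8 / ε)
  have hN0 : (0 : ℝ) < N := lt_trans (by positivity) hN
  have hN1 : 0 < N := by exact_mod_cast hN0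
  have hNε : 1 / (N : ℝ) ≤ ε / 8 := by
    rw [div_le_div_iff₀ hN0 (by norm_num)]
    rw [div_lt_iff₀ hε] at hN
    linarith only [hN]
  set k : ℝ := ε / (8 * N) with hk
  have hk0 : 0 < k := by positivity
  set θ : ℝ := ε / (24 * (N + 1)) with hθ
  have hθ0 : 0 < θ := by positivity
  set B : ℝ := 3 * (N + 1) * Real.log (N + 1) + 2 * Real.log (N + 1) + Real.log 6 +
    Real.log 5 + Real.log 2 with hB
  obtain ⟨J₀, hJ₀⟩ := exists_nat_gt (max (8 * B / ε) (8 * 49 * (N + 1) / (ε * k)))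
  refine ⟨θ, hθ0, J₀, fun J hJ F hF => ?_⟩
  have hJr : (J₀ : ℝ) ≤ J := by exact_mod_cast hJ
  have hJ1 : 8 * B / ε < J := lt_of_le_of_lt (le_max_left _ _) (lt_of_lt_of_le hJ₀ hJr)
  have hJ2 : 8 * 49 * (N + 1) / (ε * k) < J :=
    lt_of_le_of_lt (le_max_right _ _) (lt_of_lt_of_le hJ₀ hJr)
  have hJ0 : (0 : ℝ) < J := lt_trans (by positivity) hJ2
  have h1 := V_le_types F hN1 hk0.le (mul_nonneg hθ0.le hJ0.le) hF
  refine h1.trans ?_
  have t1 : B ≤ ε * J / 8 := by
    rw [div_lt_iff₀ hε] at hJ1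
    linarith only [hJ1]
  have t2 : 3 * ((N : ℝ) + 1) * (θ * J) = ε * J / 8 := by
    rw [hθ]
    field_simp
    ring
  have t3 : (N : ℝ) * k * J = ε * J / 8 := by
    rw [hk]
    field_simp
  have t4 : (J : ℝ) / N * Real.log 2 ≤ ε * J / 8 := by
    have e1 : (J : ℝ) / N * Real.log 2 ≤ (J : ℝ) / N := by
      have : 0 ≤ (J : ℝ) / N := by positivity
      nlinarith only [hl2', this]
    have e2 : (J : ℝ) / N = 1 / N * J := by ring
    have e3 := mul_le_mul_of_nonneg_right hNε hJ0.le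
    rw [← e2] at e3
    linarith only [e1, e3]
  have t5 : ((N : ℝ) + 1) * (J * Real.log 2 * (49 * Real.exp (-(k * J)))) ≤ ε * J / 8 := by
    have e1 : Real.exp (-(k * J)) ≤ 1 / (k * J) := by
      rw [Real.exp_neg, ← one_div]
      refine one_div_le_one_div_of_le (by positivity) ?_
      have := Real.add_one_le_exp (k * J)
      linarith only [this]
    have e2 : 49 * ((N : ℝ) + 1) * (1 / (k * J)) ≤ ε / 8 := by
      rw [div_lt_iff₀ (by positivity)] at hJ2
      rw [mul_one_div, div_le_div_iff₀ (by positivity) (by norm_num)]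
      nlinarith only [hJ2]
    have e3 : 49 * ((N : ℝ) + 1) * Real.exp (-(k * J)) ≤ ε / 8 :=
      le_trans (mul_le_mul_of_nonneg_left e1 (by positivity)) e2
    have e4 : ((N : ℝ) + 1) * (J * Real.log 2 * (49 * Real.exp (-(k * J)))) =
        (49 * ((N : ℝ) + 1) * Real.exp (-(k * J))) * (J * Real.log 2) := by ring
    rw [e4]
    calc (49 * ((N : ℝ) + 1) * Real.exp (-(k * J))) * (J * Real.log 2) ≤
        ε / 8 * (J * 1) := by
          refine mul_le_mul e3 (mul_le_mul_of_nonneg_left hl2' hJ0.le) (by positivity)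
            (by positivity)
      _ = ε * J / 8 := by ring
  have t6 : 0 ≤ ε * J := by positivity
  have e7 : 3 * ((N : ℝ) + 1) * (θ * J + Real.log (N + 1)) =
      3 * ((N : ℝ) + 1) * (θ * J) + 3 * (N + 1) * Real.log (N + 1) := by ring
  have e8 : ((J : ℝ) / N + 1) * Real.log 2 = (J : ℝ) / N * Real.log 2 + Real.log 2 := by ring
  rw [e7, e8, t2, t3]
  linarith only [t1, t4, t5, t6]

end Pool.KAL.KP1
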