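import Pool.Agent.H9.K2.Stmts2
import Pool.Agent.H13.KAL.KP1

/-!
# Nonconcentration given contexts

From small conditional probabilities given the position to small conditional probabilities given a
context.
-/

set_option autoImplicit false

namespace Pool.KAL.NC1

open Finset Real
open Pool.Agent.H49.Ent Pool.Agent.H32.Dense Pool.STK Pool.KA

variable {Ω S T U : Type} [Fintype Ω] {p : Ω → ℝ}

open Classical in
/-- The probability of an event. -/
noncomputable def Pe (p : Ω → ℝ) (A : Ω → Prop) : ℝ := ∑ ω, if A ω then p ω else 0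

open Classical in
theorem Pe_nonneg (hp : ∀ ω, 0 ≤ p ω) (A : Ω → Prop) : 0 ≤ Pe p A :=
  Finset.sum_nonneg fun ω _ => by split_ifs; exacts [hp ω, le_rfl]

open Classical in
theorem Pe_mono (hp : ∀ ω, 0 ≤ p ω) {A B : Ω → Prop} (h : ∀ ω, 0 < p ω → A ω → B ω) :
    Pe p A ≤ Pe p B := by
  unfold Pe
  refine Finset.sum_le_sum fun ω _ => ?_
  rcases (hp ω).eq_or_lt with h0 | h0
  · rw [← h0]; simp
  · by_cases hA : A ω
    · rw [if_pos hA, if_pos (h ω h0 hA)]
    · rw [if_neg hA]
      split_ifs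
      exacts [h0.le, le_rfl]

open Classical in
theorem Pe_or_le (hp : ∀ ω, 0 ≤ p ω) (A B : Ω → Prop) :
    Pe p (fun ω => A ω ∨ B ω) ≤ Pe p A + Pe p B := by
  unfold Pe
  rw [← Finset.sum_add_distrib]
  refine Finset.sum_le_sum fun ω _ => ?_
  have := hp ω
  by_cases hA : A ω <;> by_cases hB : B ω <;> simp [hA, hB, this]

open Classical in
theorem Pe_add_not (hp : IsLaw p) (A : Ω → Prop) : Pe p A + Pe p (fun ω => ¬ A ω) = 1 := by
  unfold Pe
  rw [← Finset.sum_add_distrib, ← hp.sum_one]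
  refine Finset.sum_congr rfl fun ω _ => ?_
  by_cases hA : A ω <;> simp [hA]

open Classical in
theorem law_eq_Pe (X : Ω → S) (s : S) : law p X s = Pe p (fun ω => X ω = s) := by
  unfold law Pe
  rfl

open Classical in
theorem Pe_eq_law (A : Ω → Prop) : Pe p A = law p A True := by
  unfold law Pe
  refine Finset.sum_congr rfl fun ω _ => ?_
  by_cases hA : A ω <;> simp [hA]

open Classical in
theorem law_cond_Pe (A : Ω → Prop) (X : Ω → S) (s : S) :
    law (cond p A True) X s = Pe p (fun ω => X ω = s ∧ A ω) / Pe p A := by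
  rw [law_cond, ← Pe_eq_law]
  congr 1
  unfold law Pe
  refine Finset.sum_congr rfl fun ω _ => ?_
  by_cases h : X ω = s <;> by_cases h' : A ω <;> simp [h, h']

open Classical in
theorem Pe_le_sum (hp : ∀ ω, 0 ≤ p ω) {ι : Type} (I : Finset ι) (A : Ω → Prop)
    (B : ι → Ω → Prop) (h : ∀ ω, 0 < p ω → A ω → ∃ i ∈ I, B i ω) :
    Pe p A ≤ ∑ i ∈ I, Pe p (B i) := by
  unfold Pe
  rw [Finset.sum_comm]
  refine Finset.sum_le_sum fun ω _ => ?_
  have nn : ∀ i ∈ I, 0 ≤ (if B i ω then p ω else 0) := by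
    intro i _
    split_ifs
    exacts [hp ω, le_rfl]
  rcases (hp ω).eq_or_lt with h0 | h0
  · rw [← h0]; simp
  by_cases hA : A ω
  · obtain ⟨i, hi, hB⟩ := h ω h0 hA
    rw [if_pos hA]
    refine le_trans ?_ (Finset.single_le_sum nn hi)
    rw [if_pos hB]
  · rw [if_neg hA]
    exact Finset.sum_nonneg nn

open Classical in
theorem Pe_sum_eq (I : Finset T) (x : Ω → T) (B : Ω → Prop) :
    ∑ s ∈ I, Pe p (fun ω => x ω = s ∧ B ω) = Pe p (fun ω => x ω ∈ I ∧ B ω) := by
  unfold Pe
  rw [Finset.sum_comm]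
  refine Finset.sum_congr rfl fun ω _ => ?_
  by_cases hb : B ω
  · simp only [hb, and_true]
    rw [Finset.sum_ite_eq]
  · simp only [hb, and_false, if_false, Finset.sum_const_zero]

open Classical in
/-- (A) Restriction to the samples whose value has a small conditional probability. -/
theorem event (hp : IsLaw p) (D : Ω → S) (x : Ω → T) {ρ ε : ℝ} (hε : 3 * ε < 1)
    (h : Pe p (fun ω => ρ < cpr p D x ω) ≤ ε) :
    ∃ A : Ω → Prop, 1 - 3 * ε ≤ Pe p A ∧ 0 < Pe p A ∧ ∀ ω, 0 < p ω → A ω →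
      law (cond p A True) (fun ω => (D ω, x ω)) (D ω, x ω) ≤
        2 * ρ * law (cond p A True) x (x ω) := by
  have hp0 := hp.nonneg
  set Bad : Ω → Prop := fun ω => ρ < cpr p D x ω with hBad
  set Poor : Ω → Prop := fun ω => Pe p (fun ω' => x ω' = x ω) < 2 *
    Pe p (fun ω' => x ω' = x ω ∧ Bad ω') with hPoor
  set A : Ω → Prop := fun ω => ¬ (Bad ω ∨ Poor ω) with hA
  -- the poor values
  have h1 : Pe p Poor ≤ 2 * ε := by
    have e1 : Pe p Poor ≤ ∑ ω, p ω * (2 * Pe p (fun ω' => x ω' = x ω ∧ Bad ω') /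
        Pe p (fun ω' => x ω' = x ω)) := by
      have e0 : Pe p Poor = ∑ ω, if Poor ω then p ω else 0 := rfl
      rw [e0]
      refine Finset.sum_le_sum fun ω _ => ?_
      rcases (hp0 ω).eq_or_lt with h0 | h0
      · rw [← h0]; simp
      have l0 : 0 < Pe p (fun ω' => x ω' = x ω) := by
        rw [← law_eq_Pe]
        exact law_pos hp0 x h0
      have l1 : 0 ≤ Pe p (fun ω' => x ω' = x ω ∧ Bad ω') := Pe_nonneg hp0 _
      by_cases hh : Poor ω
      · rw [if_pos hh]
        have : 1 ≤ 2 * Pe p (fun ω' => x ω' = x ω ∧ Bad ω') / Pe p (fun ω' => x ω' = x ω) := by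
          rw [one_le_div l0]
          exact hh.le
        calc p ω = p ω * 1 := (mul_one _).symm
          _ ≤ _ := mul_le_mul_of_nonneg_left this h0.le
      · rw [if_neg hh]
        exact mul_nonneg h0.le (div_nonneg (by linarith) l0.le)
    refine e1.trans ?_
    have e2 : ∑ ω, p ω * (2 * Pe p (fun ω' => x ω' = x ω ∧ Bad ω') /
        Pe p (fun ω' => x ω' = x ω)) = ∑ s ∈ univ.image x, law p x s *
          (2 * Pe p (fun ω' => x ω' = s ∧ Bad ω') / Pe p (fun ω' => x ω' = s)) :=
      sum_mul_eq_sum_image p x (fun s => 2 * Pe p (fun ω' => x ω' = s ∧ Bad ω') /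
        Pe p (fun ω' => x ω' = s))
    rw [e2]
    have e3 : ∀ s ∈ univ.image x, law p x s *
          (2 * Pe p (fun ω' => x ω' = s ∧ Bad ω') / Pe p (fun ω' => x ω' = s)) ≤
          2 * Pe p (fun ω' => x ω' = s ∧ Bad ω') := by
      intro s _
      rw [law_eq_Pe]
      by_cases h0 : Pe p (fun ω' => x ω' = s) = 0
      · rw [h0, zero_mul]
        exact mul_nonneg (by norm_num) (Pe_nonneg hp0 _)
      · rw [mul_div_cancel₀ _ h0]
    refine (Finset.sum_le_sum e3).trans ?_
    rw [← Finset.mul_sum]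
    have e4 : ∑ s ∈ univ.image x, Pe p (fun ω' => x ω' = s ∧ Bad ω') ≤ Pe p Bad := by
      rw [Pe_sum_eq]
      exact Pe_mono hp0 fun _ _ h => h.2
    linarith
  have h2 : Pe p (fun ω => Bad ω ∨ Poor ω) ≤ 3 * ε := by
    have := Pe_or_le hp0 Bad Poor
    linarith
  have h3 := Pe_add_not hp (fun ω => Bad ω ∨ Poor ω)
  have h4 : 1 - 3 * ε ≤ Pe p A := by
    simp only [hA]
    linarith
  have h5 : 0 < Pe p A := by linarith
  refine ⟨A, h4, h5, fun ω hω hAω => ?_⟩
  rw [law_cond_Pe, law_cond_Pe, mul_div_assoc']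
  refine div_le_div_of_nonneg_right ?_ h5.le
  simp only [hA, hPoor, not_or, not_lt] at hAω
  obtain ⟨hB, hP⟩ := hAω
  have l0 : 0 < Pe p (fun ω' => x ω' = x ω) := by
    rw [← law_eq_Pe]
    exact law_pos hp0 x hω
  -- upper bound
  have u1 : Pe p (fun ω' => (D ω', x ω') = (D ω, x ω) ∧ A ω') ≤
      ρ * Pe p (fun ω' => x ω' = x ω) := by
    have v1 : Pe p (fun ω' => (D ω', x ω') = (D ω, x ω) ∧ A ω') ≤
        Pe p (fun ω' => (D ω', x ω') = (D ω, x ω)) := Pe_mono hp0 fun _ _ h => h.1
    have v2 : Pe p (fun ω' => (D ω', x ω') = (D ω, x ω)) ≤ ρ * Pe p (fun ω' => x ω' = x ω) := by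
      have v3 : ¬ ρ < cpr p D x ω := hB
      rw [not_lt] at v3
      unfold cpr at v3
      rw [law_eq_Pe, law_eq_Pe, div_le_iff₀ l0] at v3
      exact v3
    exact v1.trans v2
  have u2 : Pe p (fun ω' => x ω' = x ω) ≤ 2 * Pe p (fun ω' => x ω' = x ω ∧ A ω') := by
    have v1 : Pe p (fun ω' => x ω' = x ω) ≤ Pe p (fun ω' => x ω' = x ω ∧ Bad ω') +
        Pe p (fun ω' => x ω' = x ω ∧ A ω') := by
      refine (Pe_mono hp0 ?_).trans (Pe_or_le hp0 _ _)
      intro ω' _ hx
      by_cases hb : Bad ω'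
      · exact Or.inl ⟨hx, hb⟩
      · refine Or.inr ⟨hx, ?_⟩
        simp only [hA, hPoor, not_or, not_lt]
        refine ⟨hb, ?_⟩
        rw [hx]
        exact hP
    linarith
  have hρ : 0 ≤ ρ := by
    by_contra hneg
    push Not at hneg
    have : Pe p (fun ω' => (D ω', x ω') = (D ω, x ω) ∧ A ω') < 0 :=
      lt_of_le_of_lt u1 (mul_neg_of_neg_of_pos hneg l0)
    exact absurd (Pe_nonneg hp0 _) (not_le.mpr this)
  calc _ ≤ ρ * Pe p (fun ω' => x ω' = x ω) := u1
    _ ≤ ρ * (2 * Pe p (fun ω' => x ω' = x ω ∧ A ω')) := mul_le_mul_of_nonneg_left u2 hρ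
    _ = _ := by ring

/-- The position `s` is compatible with the context `u`. -/
def Cmp (p : Ω → ℝ) (x : Ω → T) (b : Ω → U) (s : T) (u : U) : Prop :=
  ∃ ω, 0 < p ω ∧ x ω = s ∧ b ω = u

open Classical in
/-- (B) From the position to a context: each position is compatible with at most `C` contexts. -/
theorem context (hp : IsLaw p) (D : Ω → S) (x : Ω → T) (b : Ω → U) {ρ η C : ℝ} (hρ : 0 ≤ ρ)
    (hη : 0 < η)
    (h1 : ∀ ω, 0 < p ω → law p (fun ω => (D ω, x ω)) (D ω, x ω) ≤ ρ * law p x (x ω))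
    (h2 : ∀ ω, 0 < p ω →
      (((univ.filter fun ω' => 0 < p ω' ∧ x ω' = x ω).image b).card : ℝ) ≤ C) :
    ∃ G : U → Prop, 1 - C * η ≤ Pe p (fun ω => G (b ω)) ∧
      ∀ u, G u → ∀ d, law p (fun ω => (D ω, b ω)) (d, u) ≤ ρ / η * law p b u := by
  have hp0 := hp.nonneg
  set M : U → ℝ := fun u => Pe p (fun ω => Cmp p x b (x ω) u) with hM
  have hM0 : ∀ u, 0 ≤ M u := fun u => Pe_nonneg hp0 _
  refine ⟨fun u => η * M u ≤ law p b u, ?_, ?_⟩
  · have h3 := Pe_add_not hp (fun ω => η * M (b ω) ≤ law p b (b ω))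
    have h4 : Pe p (fun ω => ¬ η * M (b ω) ≤ law p b (b ω)) ≤ C * η := by
      have e1 : Pe p (fun ω => ¬ η * M (b ω) ≤ law p b (b ω)) ≤
          ∑ ω, p ω * (η * M (b ω) / law p b (b ω)) := by
        unfold Pe
        refine Finset.sum_le_sum fun ω _ => ?_
        rcases (hp0 ω).eq_or_lt with h0 | h0
        · rw [← h0]; simp
        have l0 := law_pos hp0 b h0
        split_ifs with hh
        · have : 1 ≤ η * M (b ω) / law p b (b ω) := by
            rw [one_le_div l0]
            exact (not_le.mp hh).le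
          calc p ω = p ω * 1 := (mul_one _).symm
            _ ≤ _ := mul_le_mul_of_nonneg_left this h0.le
        · exact mul_nonneg h0.le (div_nonneg (mul_nonneg hη.le (hM0 _)) l0.le)
      refine e1.trans ?_
      rw [sum_mul_eq_sum_image p b (fun u => η * M u / law p b u)]
      set I : Finset U := (univ.filter fun ω => 0 < p ω).image b with hI
      have e2 : ∑ u ∈ univ.image b, law p b u * (η * M u / law p b u) ≤
          ∑ u ∈ I, η * M u := by
        have e3 : ∑ u ∈ univ.image b, law p b u * (η * M u / law p b u) =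
            ∑ u ∈ I, law p b u * (η * M u / law p b u) := by
          symm
          refine Finset.sum_subset (Finset.image_subset_image (Finset.filter_subset _ _)) ?_
          intro u _ hu
          have : law p b u = 0 := by
            unfold law
            refine Finset.sum_eq_zero fun ω _ => ?_
            split_ifs with hh
            · by_contra hne
              refine hu (Finset.mem_image.mpr ⟨ω, ?_, hh⟩)
              exact Finset.mem_filter.mpr ⟨Finset.mem_univ _,
                lt_of_le_of_ne (hp0 ω) (Ne.symm hne)⟩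
            · rfl
          rw [this, zero_mul]
        rw [e3]
        refine Finset.sum_le_sum fun u _ => ?_
        by_cases h0 : law p b u = 0
        · rw [h0, zero_mul]
          exact mul_nonneg hη.le (hM0 u)
        · rw [mul_div_cancel₀ _ h0]
      refine e2.trans ?_
      rw [← Finset.mul_sum]
      have e4 : ∑ u ∈ I, M u ≤ C := by
        simp only [hM]
        unfold Pe
        rw [Finset.sum_comm]
        have e5 : ∀ ω, ∑ u ∈ I, (if Cmp p x b (x ω) u then p ω else 0) ≤ p ω * C := by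
          intro ω
          rcases (hp0 ω).eq_or_lt with h0 | h0
          · rw [← h0]; simp
          rw [← Finset.sum_filter, Finset.sum_const, nsmul_eq_mul, mul_comm]
          refine mul_le_mul_of_nonneg_left (le_trans ?_ (h2 ω h0)) h0.le
          have : I.filter (fun u => Cmp p x b (x ω) u) ⊆
              (univ.filter fun ω' => 0 < p ω' ∧ x ω' = x ω).image b := by
            intro u hu
            obtain ⟨_, ω', k1, k2, k3⟩ := Finset.mem_filter.mp hu
            exact Finset.mem_image.mpr ⟨ω', Finset.mem_filter.mpr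
              ⟨Finset.mem_univ _, k1, k2⟩, k3⟩
          exact_mod_cast Finset.card_le_card this
        refine (Finset.sum_le_sum fun ω _ => e5 ω).trans ?_
        rw [← Finset.sum_mul, hp.sum_one, one_mul]
      nlinarith
    linarith
  · intro u hu d
    have l0 : law p (fun ω => (D ω, b ω)) (d, u) ≤ ρ * M u := by
      have e1 : law p (fun ω => (D ω, b ω)) (d, u) ≤
          ∑ s ∈ (univ.image x).filter (fun s => Cmp p x b s u),
            law p (fun ω => (D ω, x ω)) (d, s) := by
        simp only [law_eq_Pe]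
        refine Pe_le_sum hp0 _ _ _ fun ω h0 hh => ⟨x ω, ?_, ?_⟩
        · exact Finset.mem_filter.mpr ⟨Finset.mem_image_of_mem x (Finset.mem_univ ω),
            ω, h0, rfl, (Prod.ext_iff.mp hh).2⟩
        · exact Prod.ext (Prod.ext_iff.mp hh).1 rfl
      refine e1.trans ?_
      have e2 : ∀ s ∈ (univ.image x).filter (fun s => Cmp p x b s u),
          law p (fun ω => (D ω, x ω)) (d, s) ≤ ρ * law p x s := by
        intro s _
        by_cases hex : ∃ ω, 0 < p ω ∧ D ω = d ∧ x ω = s
        · obtain ⟨ω, k1, k2, k3⟩ := hex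
          have := h1 ω k1
          rwa [k2, k3] at this
        · have : law p (fun ω => (D ω, x ω)) (d, s) = 0 := by
            unfold law
            refine Finset.sum_eq_zero fun ω _ => ?_
            split_ifs with hh
            · by_contra hne
              exact hex ⟨ω, lt_of_le_of_ne (hp0 ω) (Ne.symm hne), (Prod.ext_iff.mp hh).1,
                (Prod.ext_iff.mp hh).2⟩
            · rfl
          rw [this]
          exact mul_nonneg hρ (law_nonneg hp0 x s)
      refine (Finset.sum_le_sum e2).trans ?_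
      rw [← Finset.mul_sum]
      refine mul_le_mul_of_nonneg_left ?_ hρ
      have e3 : ∀ s, law p x s = Pe p (fun ω => x ω = s ∧ True) := by
        intro s
        rw [law_eq_Pe]
        simp
      simp only [e3]
      rw [Pe_sum_eq]
      exact Pe_mono hp0 fun _ _ h => (Finset.mem_filter.mp h.1).2
    calc _ ≤ ρ * M u := l0
      _ = ρ / η * (η * M u) := by field_simp
      _ ≤ ρ / η * law p b u := mul_le_mul_of_nonneg_left hu (div_nonneg hρ hη.le)

open Classical in
/-- (C) The ball form. -/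
theorem ball {m q : ℕ} (hp : IsLaw p) (d : Ω → Fin m → ℝ) (b : Ω → U) {u : U} {ρ r : ℝ}
    (hr : r ≤ 1 / 2 ^ q) (hu : 0 < law p b u)
    (h : ∀ D, law p (fun ω => (fl q (d ω), b ω)) (D, u) ≤ ρ * law p b u) (v : Fin m → ℝ) :
    (∑ ω', if ∀ j, |d ω' j - v j| ≤ r then cond p b u ω' else 0) ≤ 3 ^ m * ρ := by
  have hp0 := hp.nonneg
  set N : Finset (Fin m → ℤ) :=
    Fintype.piFinset fun j => Finset.Icc (⌊2 ^ q * v j⌋ - 1) (⌊2 ^ q * v j⌋ + 1) with hN
  have hcard : N.card = 3 ^ m := by
    rw [hN, Fintype.card_piFinset]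
    have h3 : ∀ j : Fin m,
        (Finset.Icc (⌊2 ^ q * v j⌋ - 1) (⌊2 ^ q * v j⌋ + 1)).card = 3 := by
      intro j
      rw [Int.card_Icc]
      have : ⌊(2 : ℝ) ^ q * v j⌋ + 1 + 1 - (⌊(2 : ℝ) ^ q * v j⌋ - 1) = 3 := by ring
      rw [this]
      rfl
    simp only [h3, Finset.prod_const, Finset.card_univ, Fintype.card_fin]
  have hmem : ∀ ω, (∀ j, |d ω j - v j| ≤ r) → fl q (d ω) ∈ N := by
    intro ω hω
    rw [hN, Fintype.mem_piFinset]
    intro j
    change ⌊(2 : ℝ) ^ q * d ω j⌋ ∈ _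
    have p2 : (0 : ℝ) < 2 ^ q := by positivity
    have h1 : |2 ^ q * d ω j - 2 ^ q * v j| ≤ 1 := by
      rw [← mul_sub, abs_mul, abs_of_pos p2]
      have := (hω j).trans hr
      rw [le_div_iff₀ p2] at this
      linarith
    rw [abs_le] at h1
    have a1 := Int.floor_le ((2 : ℝ) ^ q * d ω j)
    have a2 := Int.lt_floor_add_one ((2 : ℝ) ^ q * d ω j)
    have b1 := Int.floor_le ((2 : ℝ) ^ q * v j)
    have b2 := Int.lt_floor_add_one ((2 : ℝ) ^ q * v j)
    have c1 : ((⌊(2 : ℝ) ^ q * v j⌋ - 2 : ℤ) : ℝ) < ⌊(2 : ℝ) ^ q * d ω j⌋ := by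
      push_cast
      linarith
    have c2 : (⌊(2 : ℝ) ^ q * d ω j⌋ : ℝ) < ((⌊(2 : ℝ) ^ q * v j⌋ + 2 : ℤ) : ℝ) := by
      push_cast
      linarith
    have c1' := Int.cast_lt.mp c1
    have c2' := Int.cast_lt.mp c2
    rw [Finset.mem_Icc]
    omega
  calc (∑ ω', if ∀ j, |d ω' j - v j| ≤ r then cond p b u ω' else 0) =
      Pe p (fun ω' => (∀ j, |d ω' j - v j| ≤ r) ∧ b ω' = u) / law p b u := by
        unfold Pe
        rw [Finset.sum_div]
        refine Finset.sum_congr rfl fun ω _ => ?_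
        unfold Pool.Agent.H49.Ent.cond
        by_cases h1 : ∀ j, |d ω j - v j| ≤ r <;> by_cases h2 : b ω = u <;> simp [h1, h2]
    _ ≤ (∑ D ∈ N, law p (fun ω => (fl q (d ω), b ω)) (D, u)) / law p b u := by
        refine div_le_div_of_nonneg_right ?_ hu.le
        simp only [law_eq_Pe]
        refine Pe_le_sum hp0 _ _ _ fun ω _ hh => ⟨fl q (d ω), hmem ω hh.1, ?_⟩
        exact Prod.ext rfl hh.2
    _ = ∑ D ∈ N, law p (fun ω => (fl q (d ω), b ω)) (D, u) / law p b u := by
        rw [Finset.sum_div]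
    _ ≤ ∑ _D ∈ N, ρ := by
        refine Finset.sum_le_sum fun D _ => ?_
        rw [div_le_iff₀ hu]
        exact h D
    _ = 3 ^ m * ρ := by
        rw [Finset.sum_const, hcard, nsmul_eq_mul]
        push_cast
        ring

end Pool.KAL.NC1
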